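import Pool.Agent.W558.WT.Stms

set_option autoImplicit false

universe u

open Finset Pool.Agent.W558

namespace Pool.Agent.W230.WT

/-- least elements of finite sets -/
lemma exists_least {ι : Type} (r : ι → ι → Prop) (hr : ∀ a b, r a b ∨ r b a)
    (ht : ∀ a b c, r a b → r b c → r a c) (s : Finset ι) :
    s.Nonempty → ∃ j ∈ s, ∀ l ∈ s, r j l := by
  classical
  have hrefl : ∀ a, r a a := fun a => (hr a a).elim id id
  induction s using Finset.induction_on with
  | empty => intro h; exact absurd h Finset.not_nonempty_empty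
  | insert a s _ ih =>
    intro _
    rcases s.eq_empty_or_nonempty with hs | hs
    · subst hs
      refine ⟨a, mem_insert_self _ _, fun l hl => ?_⟩
      rw [mem_insert] at hl
      rcases hl with rfl | hl
      · exact hrefl _
      · exact absurd hl (Finset.notMem_empty _)
    · obtain ⟨j, hj, hjl⟩ := ih hs
      rcases hr a j with h | h
      · refine ⟨a, mem_insert_self _ _, fun l hl => ?_⟩
        rw [mem_insert] at hl
        rcases hl with rfl | hl
        · exact hrefl _
        · exact ht _ _ _ h (hjl l hl)
      · refine ⟨j, mem_insert_of_mem hj, fun l hl => ?_⟩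
        rw [mem_insert] at hl
        rcases hl with rfl | hl
        · exact h
        · exact hjl l hl

theorem main : WT_tn.{u} := by
  classical
  intro p _ k L _ _ _ _ T I ι _ _ _ M f n a h Λ R hTW lam hlam
  -- representatives
  choose μ hμ hμR using fun t => hTW.rep t lam
  have hne : ∀ ν ∈ Λ, (univ.filter (fun l => (lam - ν) l ≠ 0)).Nonempty := by
    intro ν hν
    by_contra hcon
    rw [not_nonempty_iff_eq_empty, filter_eq_empty_iff] at hcon
    apply hlam
    have : lam = ν := by
      funext l
      have h1 := hcon (mem_univ l)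
      push Not at h1
      rw [Pi.sub_apply, sub_eq_zero] at h1
      exact h1
    rw [this]
    exact hν
  have hleast : ∀ t, ∃ j, (lam - μ t) j ≠ 0 ∧ ∀ l, (lam - μ t) l ≠ 0 →
      ∀ i, n j i ≤ n l i ∨ (M.x t i)⁻¹ ∈ M.A t := by
    intro t
    obtain ⟨j, hj, hjl⟩ := exists_least (fun j l => ∀ i, n j i ≤ n l i ∨ (M.x t i)⁻¹ ∈ M.A t)
      (fun j l => hTW.cmp t j l) (fun a b c h1 h2 i => by
        rcases h1 i with h1 | h1
        · rcases h2 i with h2 | h2
          · exact Or.inl (h1.trans h2)
          · exact Or.inr h2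
        · exact Or.inr h1) _ (hne _ (hμ t))
    exact ⟨j, (mem_filter.1 hj).2, fun l hl => hjl l (mem_filter.2 ⟨mem_univ _, hl⟩)⟩
  choose j0 hj0 hj0l using hleast
  have hfin : Fintype Λ := Fintype.ofFinite _
  let mn : Λ → I → ℤ := fun ν i =>
    (univ.filter (fun l => (lam - (ν : ι → ZMod p)) l ≠ 0)).inf' (hne ν ν.2) (fun l => n l i)
  have hmn : ∀ (ν : Λ) (i : I) (l : ι), (lam - (ν : ι → ZMod p)) l ≠ 0 → mn ν i ≤ n l i :=
    fun ν i l hl => inf'_le (fun l => n l i) (mem_filter.2 ⟨mem_univ _, hl⟩)
  let n' : I → ℤ := fun i => (univ : Finset Λ).sup' ⟨0, mem_univ _⟩ (fun ν => mn ν i)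
  refine ⟨n', _, fun t => lam - μ t, j0, ?_, ?_, hj0, hj0l, ?_, ?_, fun t => rfl⟩
  · intro t
    rw [sub_sub_cancel]
    exact hμ t
  · intro t j hj
    change lam j - μ t j = 0
    rw [hμR t j hj, sub_self]
  · intro t i
    by_cases hinv : (M.x t i)⁻¹ ∈ M.A t
    · exact Or.inr hinv
    · left
      apply le_antisymm
      · refine sup'_le _ _ fun ν _ => ?_
        by_cases hνμ : μ t - (ν : ι → ZMod p) = 0
        · have e : (ν : ι → ZMod p) = μ t := (sub_eq_zero.1 hνμ).symm
          refine hmn ν i _ ?_
          rw [e]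
          exact hj0 t
        · obtain ⟨j, hjR, hj, hjl⟩ := hTW.ech t _ (Λ.sub_mem (hμ t) ν.2) hνμ
          have e : ∀ l, (lam - (ν : ι → ZMod p)) l =
              (lam - μ t) l + (μ t - (ν : ι → ZMod p)) l := by
            intro l
            simp only [Pi.sub_apply]
            ring
          by_cases h0 : (μ t - (ν : ι → ZMod p)) (j0 t) = 0
          · refine hmn ν i _ ?_
            rw [e, h0, add_zero]
            exact hj0 t
          · have h1 : mn ν i ≤ n j i := by
              refine hmn ν i _ ?_
              rw [e]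
              have : (lam - μ t) j = 0 := by
                rw [Pi.sub_apply, hμR t j hjR, sub_self]
              rw [this, zero_add]
              exact hj
            rcases hjl _ h0 i with h2 | h2
            · exact h1.trans h2
            · exact absurd h2 hinv
      · have h1 : n (j0 t) i ≤ mn ⟨μ t, hμ t⟩ i := by
          refine le_inf' _ _ fun l hl => ?_
          rcases hj0l t l (mem_filter.1 hl).2 i with h2 | h2
          · exact h2
          · exact absurd h2 hinv
        exact h1.trans (le_sup' (fun ν => mn ν i) (mem_univ _))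
  · intro i
    refine sup'_le _ _ fun ν _ => ?_
    obtain ⟨l, hl⟩ := hne ν ν.2
    exact (hmn ν i l (mem_filter.1 hl).2).trans (hTW.n0 l i)

end Pool.Agent.W230.WT
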